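import Pool.Agent.Helper58.SF.StG

/-!
# Project SF, module LFT: lifting a cycle to a higher level
-/

set_option autoImplicit false

namespace Pool.Agent.Helper8.SF

open Set Topology Pool.Agent.Helper13.TR Pool.Agent.Helper58.SF
open Pool.Agent.Helper13.TW (IsArc Spl IsSCC dch Chn Splt GT CSy MP Val LR MCell StARB StARX StSCL StUAR StINF StLIN StAC1 StSDM StLRC StBF StMD1 StMD2 StMD3)

section simp

variable {X : Type} [TopologicalSpace X]

/-- a singular `0`-simplex is the constant map at its value -/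
private theorem sx0 (σ : Sx X 0) : σ = pt (σ (stdSimplex.vertex 0)) := by
  ext t
  have h : t = stdSimplex.vertex 0 := Subsingleton.elim _ _
  rw [h]
  rfl

private theorem face_pt (σ : Sx X 1) (i : Fin 2) :
    σ.comp (face 0 i) = pt (σ (stdSimplex.vertex (i.succAbove 0))) := by
  rw [sx0 (σ.comp (face 0 i))]
  congr 1
  show σ (stdSimplex.map i.succAbove (stdSimplex.vertex 0)) = _
  rw [stdSimplex.map_vertex]

private theorem bd_single (σ : Sx X 1) :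
    bd 0 (Finsupp.single σ (1 : ℤ)) =
      Finsupp.single (pt (σ (stdSimplex.vertex 1))) 1 -
        Finsupp.single (pt (σ (stdSimplex.vertex 0))) 1 := by
  have h : bd 0 (Finsupp.single σ (1 : ℤ)) =
      ∑ i : Fin 2, ((-1 : ℤ) ^ (i : ℕ)) • Finsupp.single (σ.comp (face 0 i)) (1 : ℤ) := by
    simp [bd, Finsupp.linearCombination_single]
  rw [h, Fin.sum_univ_two, face_pt, face_pt]
  have e0 : (0 : Fin 2).succAbove (0 : Fin 1) = 1 := rfl
  have e1 : (1 : Fin 2).succAbove (0 : Fin 1) = 0 := rfl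
  rw [e0, e1]
  simp [sub_eq_add_neg]

private theorem single_mem {S : Set X} {n : ℕ} {σ : Sx X n} (h : range σ ⊆ S) :
    Finsupp.single σ (1 : ℤ) ∈ cin S n :=
  Finsupp.single_mem_supported ℤ _ h

private theorem push_pt {Y : Type} [TopologicalSpace Y] (f : C(X, Y)) (x : X) :
    push f 0 (Finsupp.single (pt x) (1 : ℤ)) = Finsupp.single (pt (f x)) 1 := by
  have h : f.comp (pt x) = pt (f x) := by ext t; rfl
  simp [push, h]

/-- the map on `0`-chains given by a map of the points -/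
private noncomputable def vm (h : X → X) : Ch X 0 →ₗ[ℤ] Ch X 0 :=
  Finsupp.lmapDomain ℤ ℤ fun s : Sx X 0 => pt (h (s (stdSimplex.vertex 0)))

private theorem vm_pt (h : X → X) (x : X) :
    vm h (Finsupp.single (pt x) (1 : ℤ)) = Finsupp.single (pt (h x)) 1 := by
  have e : (pt x : Sx X 0) (stdSimplex.vertex 0) = x := rfl
  simp [vm, e]

/-- joining points in open preconnected subsets of a locally path connected subspace -/
private theorem joinG {S G : Set X} (hL : LocallyPathConnectedSpace ↥S)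
    (hG : IsOpen G) (hc : IsPreconnected (S ∩ G)) {p q : X} (hp : p ∈ S ∩ G) (hq : q ∈ S ∩ G) :
    JoinedIn (S ∩ G) p q := by
  have hO : IsOpen (Subtype.val ⁻¹' G : Set ↥S) := hG.preimage continuous_subtype_val
  have him : Subtype.val '' (Subtype.val ⁻¹' G : Set ↥S) = S ∩ G := Subtype.image_preimage_coe S G
  have hpre : IsPreconnected (Subtype.val ⁻¹' G : Set ↥S) :=
    (IsInducing.subtypeVal.isPreconnected_image).1 (by rw [him]; exact hc)
  have hcon : IsConnected (Subtype.val ⁻¹' G : Set ↥S) := ⟨⟨⟨p, hp.1⟩, hp.2⟩, hpre⟩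
  have hpc : IsPathConnected (Subtype.val ⁻¹' G : Set ↥S) :=
    (hO.isConnected_iff_isPathConnected).1 hcon
  have h1 := hpc.image continuous_subtype_val
  rw [him] at h1
  exact h1.joinedIn p hp q hq

/-- small path connected relatively open sets -/
private theorem smallG {S N : Set X} (hL : LocallyPathConnectedSpace ↥S) (hN : IsOpen N) {y : X}
    (hy : y ∈ S ∩ N) : ∃ G : Set X, IsOpen G ∧ y ∈ G ∧ IsPathConnected (S ∩ G) ∧ S ∩ G ⊆ N := by
  have hO : IsOpen (Subtype.val ⁻¹' N : Set ↥S) := hN.preimage continuous_subtype_val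
  have hyO : (⟨y, hy.1⟩ : ↥S) ∈ (Subtype.val ⁻¹' N : Set ↥S) := hy.2
  have hC := hO.pathComponentIn (⟨y, hy.1⟩ : ↥S)
  obtain ⟨G, hG, hGe⟩ := isOpen_induced_iff.1 hC
  have him : Subtype.val '' (Subtype.val ⁻¹' G : Set ↥S) = S ∩ G := Subtype.image_preimage_coe S G
  refine ⟨G, hG, ?_, ?_, ?_⟩
  · have : (⟨y, hy.1⟩ : ↥S) ∈ (Subtype.val ⁻¹' G : Set ↥S) := by
      rw [hGe]
      exact mem_pathComponentIn_self hyO
    exact this
  · rw [← him, hGe]
    exact (isPathConnected_pathComponentIn hyO).image continuous_subtype_val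
  · rw [← him, hGe]
    rintro _ ⟨v, hv, rfl⟩
    have h2 : v ∈ (Subtype.val ⁻¹' N : Set ↥S) := pathComponentIn_subset hv
    exact h2

end simp

/-- the small cycles: `ub` is a lift of `u` -/
private def Pr {P : Type} [TopologicalSpace P] (w : Ch P 1 → ℤ) (B : Set P) (L : Ch P 0 →ₗ[ℤ] Ch P 0)
    (p : Ch P 1 →ₗ[ℤ] Ch P 1) (C : Set P) (u : Ch P 1) : Prop :=
  ∃ ub ∈ cin B 1, bd 0 ub = L (bd 0 u) ∧ ∃ e : Ch P 2, bd 1 e = p ub - u ∧ bd 1 e ∈ cin C 1 ∧
    w (bd 1 e) = 0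

private theorem Pr.all {P : Type} [TopologicalSpace P] {w : Ch P 1 → ℤ} {B : Set P}
    {L : Ch P 0 →ₗ[ℤ] Ch P 0} {p : Ch P 1 →ₗ[ℤ] Ch P 1} {C : Set P}
    (h0 : w 0 = 0)
    (hadd : ∀ e e' : Ch P 2, bd 1 e ∈ cin C 1 → bd 1 e' ∈ cin C 1 →
      w (bd 1 e + bd 1 e') = w (bd 1 e) + w (bd 1 e') ∧ w (bd 1 e - bd 1 e') = w (bd 1 e) - w (bd 1 e'))
    (u : Ch P 1) (h1 : ∀ σ ∈ u.support, Pr w B L p C (Finsupp.single σ 1)) : Pr w B L p C u := by
  let G : AddSubgroup (Ch P 1) :=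
    { carrier := {u | Pr w B L p C u}
      zero_mem' := ⟨0, Submodule.zero_mem _, by simp, 0, by simp, by simp, by simpa using h0⟩
      add_mem' := by
        rintro u v ⟨ub, hub, hu1, e, he1, he2, he3⟩ ⟨vb, hvb, hv1, f, hf1, hf2, hf3⟩
        refine ⟨ub + vb, Submodule.add_mem _ hub hvb, by simp [hu1, hv1], e + f, ?_, ?_, ?_⟩
        · rw [map_add, map_add, he1, hf1]; abel
        · rw [map_add]; exact Submodule.add_mem _ he2 hf2
        · rw [map_add, (hadd e f he2 hf2).1, he3, hf3, add_zero]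
      neg_mem' := by
        rintro u ⟨ub, hub, hu1, e, he1, he2, he3⟩
        refine ⟨-ub, Submodule.neg_mem _ hub, by simp [hu1], -e, ?_, ?_, ?_⟩
        · rw [map_neg, map_neg, he1]; abel
        · rw [map_neg]; exact Submodule.neg_mem _ he2
        · have h2 := (hadd 0 e (by simp) he2).2
          rw [map_zero, zero_sub, h0, he3] at h2
          rw [map_neg, h2]
          rfl }
  have h2 : u ∈ G := by
    rw [← Finsupp.sum_single u, Finsupp.sum]
    refine AddSubgroup.sum_mem _ fun σ hσ => ?_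
    have h3 : Finsupp.single σ (u σ) = (u σ) • (Finsupp.single σ (1 : ℤ) : Ch P 1) := by simp
    rw [h3]
    exact AddSubgroup.zsmul_mem _ (h1 σ hσ) _
  exact h2

private theorem core {P : Type} [MetricSpace P] (r : P → ℝ) (R : ℝ → P → P) (dg : P → Ch P 3 → ℤ)
    (hOMB : StOMB) (hSMW : StSMW) (hHTF : StHTF) (hCNB : StCNB) (hLPL : StLPL) (hBEX : StBEX)
    (hSDM : StSDM) (hJOI : StJOI) (hPSH : StPSH) (hMON : StMON) (hCON : StCON) (hSDA : StSDA)
    (hFLW : StFLW) (hGB : GB P r R dg)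
    (a b : ℝ) (x xb : P) (O V0 : Set P) (z : Ch P 1) (ha : 0 < a) (hab : a < b) (hb : b < 1)
    (hxa : r x = a) (hxb : r xb = b) (hRx : R a xb = x) (hO : IsOpen O) (hOV : O ⊆ V0)
    (hV0 : ∀ z ∈ cin V0 1, bd 0 z = 0 → ∃ e : Ch P 2, bd 1 e = z)
    (hz : z ∈ cin ({y : P | r y = a} ∩ O) 1) (hbz : bd 0 z = 0) (hzx : z ∈ cin {x}ᶜ 1) :
    ∃ zb ∈ cin {y : P | r y = b ∧ R a y ∈ O ∧ R a y ≠ x} 1, bd 0 zb = 0 ∧
      (∃ e : Ch P 2, bd 1 e = zb) ∧
      Wd (Up r R) (Dn r R) dg zb xb = Wd (Up r R) (Dn r R) dg z x := by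
  obtain ⟨f1, -, -, f4, f5, f6, -, -⟩ := hFLW P r R hGB.box.toFlow
  have F := hGB.box.toFlow
  obtain ⟨-, o2, o3, o4, -⟩ := hOMB P r R dg hGB
  have hm := (hMON P).1
  have hRa := f1 a ha
  have hb0 : 0 < b := ha.trans hab
  have ha1 : a < 1 := hab.trans hb
  -- levels
  have hlev : ∀ y : P, r y = b → r (R a y) = a := by
    intro y hy
    rw [F.rR a y ha, hy]
    exact min_eq_left hab.le
  -- the trajectory of x
  have hLa : ∀ v : P, r v = a → v ∈ Ln r R x → v = x := by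
    intro v hv hL
    have h := (f6 x v).1 hL
    rw [hxa, hv, min_self] at h
    rw [F.Rid a x hxa.le, F.Rid a v hv.le] at h
    exact h.symm
  have hLs : ∀ v : P, a ≤ r v → v ∈ Ln r R x → R a v = x := by
    intro v hv hL
    have h := (f6 x v).1 hL
    rw [hxa, min_eq_left hv, F.Rid a x hxa.le] at h
    exact h.symm
  -- the carrier
  obtain ⟨Q, hQ, hzQ, hQs⟩ := hCON.2 P 1 z
  have hQ1 : Q ⊆ {y : P | r y = a} ∩ O := hQs _ hz
  have hQ2 : Q ⊆ {x}ᶜ := hQs _ hzx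
  have hQL : Q ⊆ (Ln r R x)ᶜ := fun v hv hL => hQ2 hv (hLa v (hQ1 hv).1 hL)
  -- small sets
  have hLa' := hLPL P r R dg hGB.toSB a ha ha1
  have hLb' := hLPL P r R dg hGB.toSB b hb0 hb
  have hU : IsOpen (O ∩ {x}ᶜ) := hO.inter isOpen_compl_singleton
  have hG : ∀ y : ↥Q, ∃ G : Set P, IsOpen G ∧ (y : P) ∈ G ∧
      IsPathConnected ({v : P | r v = a} ∩ G) ∧ {v : P | r v = a} ∩ G ⊆ O ∩ {x}ᶜ ∧
      ∀ w ∈ cin ({v : P | r v = a} ∩ G) 1, bd 0 w = 0 → Wd (Up r R) (Dn r R) dg w x = 0 := by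
    rintro ⟨y, hy⟩
    obtain ⟨N, hN, hyN, hNU, hNw⟩ := (hSMW P r R dg hGB).1 y (O ∩ {x}ᶜ) hU ⟨(hQ1 hy).2, hQ2 hy⟩
    obtain ⟨G, hG, hyG, hGc, hGN⟩ := smallG hLa' hN (y := y) ⟨(hQ1 hy).1, hyN⟩
    refine ⟨G, hG, hyG, hGc, hGN.trans hNU, ?_⟩
    intro w hw hbw
    refine hNw w (hm _ _ 1 hGN hw) hbw x ?_ ?_
    · rw [hxa]; exact ((hQ1 hy).1).symm
    · intro h; exact h.2 rfl
  choose G hGo hyG hGc hGU hGw using hG
  obtain ⟨ρ, hρ, hρG⟩ := lebesgue_number_lemma_of_metric hQ hGo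
    (fun y hy => mem_iUnion.2 ⟨⟨y, hy⟩, hyG ⟨y, hy⟩⟩)
  obtain ⟨z', hz'Q, f, hfQ, hzf, hsm⟩ := hSDM P Q ρ hρ z hzQ hbz
  -- lifts of points
  have hhat : ∀ v : P, ∃ y : P, r v = a → r y = b ∧ R a y = v := by
    intro v
    by_cases hv : r v = a
    · obtain ⟨y, hy, hyb⟩ := (hBEX P r R dg hGB.toSB).1 v b (by rw [hv]; exact hab.le) hb
      refine ⟨y, fun _ => ⟨hyb, ?_⟩⟩
      have := hy.2
      rwa [hv] at this
    · exact ⟨v, fun h => absurd h hv⟩
  choose hat hhat using hhat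
  -- the boundary operators
  obtain ⟨p1, -, p3, -⟩ := hPSH P P P ⟨R a, hRa⟩ ⟨R a, hRa⟩
  have hbb := (hSDA P).1 0
  have hbz' : bd 0 z' = 0 := by
    have h : z' = z - bd 1 f := by rw [← hzf]; abel
    rw [h, map_sub, hbz, hbb f, sub_zero]
  have hw0 : Wd (Up r R) (Dn r R) dg (0 : Ch P 1) x = 0 := by
    have h := o4 0 x (Submodule.zero_mem _)
    rwa [map_zero] at h
  obtain ⟨zb, hzb, hbzb, e, he, heL, hew⟩ :
      Pr (fun u => Wd (Up r R) (Dn r R) dg u x) {y : P | r y = b ∧ R a y ∈ O ∧ R a y ≠ x} (vm hat)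
        (push ⟨R a, hRa⟩ 1) (Ln r R x)ᶜ z' := by
    refine Pr.all hw0 (fun e e' h h' => o2 e e' x h h') z' ?_
    intro σ hσ
    -- the simplex is in a small set
    have hσQ : range σ ⊆ Q := (Finsupp.mem_supported ℤ z').1 hz'Q hσ
    obtain ⟨y, hy⟩ := hρG (σ (stdSimplex.vertex 0)) (hσQ ⟨_, rfl⟩)
    have hσG : range σ ⊆ {v : P | r v = a} ∩ G y := by
      rintro _ ⟨t, rfl⟩
      refine ⟨(hQ1 (hσQ ⟨t, rfl⟩)).1, hy ?_⟩
      rw [Metric.mem_ball]
      exact lt_of_le_of_lt (Metric.dist_le_diam_of_mem (isCompact_range σ.continuous).isBounded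
        ⟨t, rfl⟩ ⟨_, rfl⟩) (hsm σ hσ)
    have hp := hσG ⟨stdSimplex.vertex 0, rfl⟩
    have hq := hσG ⟨stdSimplex.vertex 1, rfl⟩
    have hps := hhat _ hp.1
    have hqs := hhat _ hq.1
    -- the upper set
    have hupe : {v : P | r v = b ∧ R a v ∈ {v : P | r v = a} ∩ G y} =
        {v : P | r v = b} ∩ R a ⁻¹' G y := by
      ext v
      constructor
      · rintro ⟨h1, h2⟩; exact ⟨h1, h2.2⟩
      · rintro ⟨h1, h2⟩; exact ⟨h1, hlev v h1, h2⟩
    have hpre := hCNB.1 P r R dg hGB.toSB a b ({v : P | r v = a} ∩ G y) ha hab.le hb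
      (fun v hv => hv.1) (hGc y).isConnected.isPreconnected
    rw [hupe] at hpre
    have hj : JoinedIn ({v : P | r v = b} ∩ R a ⁻¹' G y) (hat (σ (stdSimplex.vertex 0)))
        (hat (σ (stdSimplex.vertex 1))) := by
      refine joinG hLb' ((hGo y).preimage hRa) hpre ⟨hps.1, ?_⟩ ⟨hqs.1, ?_⟩
      · show R a _ ∈ G y
        rw [hps.2]; exact hp.2
      · show R a _ ∈ G y
        rw [hqs.2]; exact hq.2
    obtain ⟨κ, hκ, hbκ⟩ := (hJOI P ({v : P | r v = b} ∩ R a ⁻¹' G y)).1 _ _ hj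
    have hpκ : push ⟨R a, hRa⟩ 1 κ ∈ cin ({v : P | r v = a} ∩ G y) 1 := by
      refine p3 ({v : P | r v = a} ∩ G y) 1 κ (hm _ _ 1 ?_ hκ)
      rintro v ⟨h1, h2⟩
      exact ⟨hlev v h1, h2⟩
    have hd : push ⟨R a, hRa⟩ 1 κ - Finsupp.single σ 1 ∈ cin ({v : P | r v = a} ∩ G y) 1 :=
      Submodule.sub_mem _ hpκ (single_mem hσG)
    have hbd : bd 0 (push ⟨R a, hRa⟩ 1 κ - Finsupp.single σ 1) = 0 := by
      rw [map_sub, p1 0 κ, hbκ, map_sub, push_pt, push_pt, bd_single]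
      show Finsupp.single (pt (R a (hat (σ (stdSimplex.vertex 1))))) (1 : ℤ) -
        Finsupp.single (pt (R a (hat (σ (stdSimplex.vertex 0))))) (1 : ℤ) - _ = 0
      rw [hps.2, hqs.2, sub_self]
    obtain ⟨e, he⟩ := hV0 _ (hm _ _ 1 (((hGU y).trans inter_subset_left).trans hOV) hd) hbd
    refine ⟨κ, hm _ _ 1 ?_ hκ, ?_, e, he, ?_, ?_⟩
    · rintro v ⟨h1, h2⟩
      have h3 := hGU y ⟨hlev v h1, h2⟩
      exact ⟨h1, h3.1, h3.2⟩
    · rw [hbκ, bd_single, map_sub, vm_pt, vm_pt]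
    · rw [he]
      refine hm _ _ 1 ?_ hd
      intro v hv hL
      exact (hGU y hv).2 (hLa v hv.1 hL)
    · rw [he]
      exact hGw y _ hd hbd
  have hbzb' : bd 0 zb = 0 := by rw [hbzb, hbz', map_zero]
  -- z bounds
  obtain ⟨ez, hez⟩ := hV0 z (hm _ _ 1 (inter_subset_right.trans hOV) hz) hbz
  have hz'e : z' = bd 1 (ez - f) := by
    rw [map_sub, hez, ← hzf]; abel
  have hz'L : bd 1 (ez - f) ∈ cin (Ln r R x)ᶜ 1 := by
    rw [← hz'e]; exact hm _ _ 1 hQL hz'Q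
  obtain ⟨⟨h, -, hh⟩, hH⟩ := hHTF P r R dg hGB a hRa _ zb ha hzb hbzb'
  have hpe : push ⟨R a, hRa⟩ 1 zb = bd 1 e + bd 1 (ez - f) := by
    rw [he, ← hz'e]; abel
  have hzbe : ∃ e : Ch P 2, bd 1 e = zb := by
    refine ⟨e + (ez - f) - h, ?_⟩
    rw [map_sub, map_add, hh, hpe]; abel
  have hW1 : Wd (Up r R) (Dn r R) dg zb x = Wd (Up r R) (Dn r R) dg z x := by
    rw [← hH x hzbe ?_, hpe, (o2 e (ez - f) x heL hz'L).1]
    · have h2 : z = bd 1 (ez - f) + bd 1 f := by rw [← map_add, sub_add_cancel, hez]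
      have h3 : bd 1 f ∈ cin (Ln r R x)ᶜ 1 := (hMON P).2.2.2.1 _ 1 f (hm _ _ 2 hQL hfQ)
      have h4 := (o2 (ez - f) f x hz'L h3).1
      rw [← h2, o4 f x (hm _ _ 2 hQL hfQ), add_zero] at h4
      rw [h4]
      have h5 : Wd (Up r R) (Dn r R) dg (bd 1 e) x = 0 := hew
      rw [h5, zero_add]
    · rintro y ⟨hy1, -, hy3⟩ s hs hL
      have h1 : a ≤ r (R s y) := by
        rw [F.rR s y (ha.trans_le hs), hy1]
        exact le_min hs hab.le
      have h2 := hLs _ h1 hL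
      rw [F.RR a s y ha hs] at h2
      exact hy3 h2
  refine ⟨zb, hzb, hbzb', hzbe, ?_⟩
  rw [← hW1]
  obtain ⟨e', he'⟩ := hzbe
  rw [← he']
  have hzbL : bd 1 e' ∈ cin (Ln r R x)ᶜ 1 := by
    rw [he']
    refine hm _ _ 1 ?_ hzb
    rintro v ⟨h1, -, h3⟩ hL
    exact h3 (hLs v (by rw [h1]; exact hab.le) hL)
  have hj := f4 a xb ha
  rw [hRx] at hj
  refine o3 e' {y | ∃ σ : ℝ, a ≤ σ ∧ y = R σ xb} ?_ xb x hj
  rintro y ⟨s, hs, rfl⟩
  refine hm _ _ 1 ?_ hzbL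
  refine compl_subset_compl.2 (f5 x _ ?_)
  refine ⟨?_, ?_⟩
  · rw [hxa, F.rR s xb (ha.trans_le hs), hxb]
    exact le_min hs hab.le
  · rw [hxa, F.RR a s xb ha hs, hRx]

theorem hLFT : StOMB → StSMW → StHTF → StCNB → StLPL → StBEX → StSDM → StJOI → StPSH → StMON →
    StCON → StSDA → StFLW → StLFT := by
  intro hOMB hSMW hHTF hCNB hLPL hBEX hSDM hJOI hPSH hMON hCON hSDA hFLW P _ r R dg hGB
    a b x xb O V0 z ha hab hb hxa hxb hRx hO hOV hV0 hz hbz hzx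
  haveI := hGB.met
  letI : MetricSpace P := TopologicalSpace.metrizableSpaceMetric P
  exact core r R dg hOMB hSMW hHTF hCNB hLPL hBEX hSDM hJOI hPSH hMON hCON hSDA hFLW hGB
    a b x xb O V0 z ha hab hb hxa hxb hRx hO hOV hV0 hz hbz hzx

end Pool.Agent.Helper8.SF
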